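import Pool.Agent.Helper1.BSX.Stmts

/-!
# DEC: the decomposition group of the extended valuation over the compositum is trivial
-/

set_option autoImplicit false

namespace Pool.Agent.Helper1.BSX

open Polynomial

theorem dec_lt_one {U : Type} [Field U] (V : ValuationSubring U) (y : U) :
    V.valuation y < 1 ↔ y = 0 ∨ y⁻¹ ∉ V := by
  by_cases hy : y = 0
  · simp [hy]
  · have hv : V.valuation y ≠ 0 := (Valuation.ne_zero_iff _).mpr hy
    constructor
    · intro h
      right
      intro hm
      rw [← ValuationSubring.valuation_le_one_iff, map_inv₀] at hm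
      have : 1 ≤ V.valuation y := by
        by_contra hlt
        rw [not_le] at hlt
        have h1 : 1 < (V.valuation y)⁻¹ := (one_lt_inv₀ (zero_lt_iff.mpr hv)).mpr hlt
        exact absurd hm (not_le.mpr h1)
      exact absurd h (not_lt.mpr this)
    · rintro (h | h)
      · exact absurd h hy
      · by_contra hlt
        rw [not_lt] at hlt
        apply h
        rw [← ValuationSubring.valuation_le_one_iff, map_inv₀]
        exact inv_le_one_of_one_le₀ hlt

theorem dec_B_unit {A B U : Type} [Field A] [Field B] [Field U] [Algebra A U] [Algebra B U]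
    {W : ValuationSubring A} {W' : ValuationSubring U} (hA : Abv A B U W W') (b : B) (hb : b ≠ 0) :
    W'.valuation (algebraMap B U b) = 1 := by
  have h1 : W'.valuation (algebraMap B U b) ≤ 1 :=
    (ValuationSubring.valuation_le_one_iff _ _).mpr (hA.2 b)
  have h2 : W'.valuation (algebraMap B U b⁻¹) ≤ 1 :=
    (ValuationSubring.valuation_le_one_iff _ _).mpr (hA.2 b⁻¹)
  rw [map_inv₀, map_inv₀] at h2
  have hv : W'.valuation (algebraMap B U b) ≠ 0 := by
    rw [Valuation.ne_zero_iff]
    exact (map_ne_zero (algebraMap B U)).mpr hb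
  refine le_antisymm h1 ?_
  by_contra hlt
  rw [not_le] at hlt
  have h3 : 1 < (W'.valuation (algebraMap B U b))⁻¹ :=
    (one_lt_inv₀ (zero_lt_iff.mpr hv)).mpr hlt
  exact absurd h2 (not_le.mpr h3)

theorem dec_A_lt {A B U : Type} [Field A] [Field B] [Field U] [Algebra A U] [Algebra B U]
    {W : ValuationSubring A} {W' : ValuationSubring U} (hA : Abv A B U W W') (a : A)
    (ha : W.valuation a < 1) : W'.valuation (algebraMap A U a) < 1 := by
  rw [dec_lt_one] at ha ⊢
  rcases ha with h | h
  · left
    rw [h, map_zero]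
  · right
    intro hm
    rw [← map_inv₀] at hm
    exact h ((hA.1 _).mp hm)

/-- two elements whose difference is small compared with a unit -/
theorem dec_close {U : Type} [Field U] (V : ValuationSubring U) (x y : U)
    (hy : V.valuation y = 1) (h : V.valuation (x - y) < 1) : V.valuation x = 1 := by
  have h1 : x = (x - y) + y := by ring
  rw [h1, Valuation.map_add_eq_of_lt_right _ (by rw [hy]; exact h), hy]

/-- in a vanishing sum the maximal value is taken twice -/
theorem dec_ultra {U : Type} [Field U] (V : ValuationSubring U) (n : ℕ) (t : ℕ → U)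
    (hs : ∑ i ∈ Finset.range n, t i = 0) (j : ℕ) (hj : j < n) (htj : t j ≠ 0)
    (hmax : ∀ i < n, V.valuation (t i) ≤ V.valuation (t j)) :
    ∃ i < n, i ≠ j ∧ V.valuation (t i) = V.valuation (t j) := by
  by_contra hcon
  push Not at hcon
  have hlt : ∀ i ∈ (Finset.range n).erase j, V.valuation (t i) < V.valuation (t j) := by
    intro i hi
    rw [Finset.mem_erase, Finset.mem_range] at hi
    exact lt_of_le_of_ne (hmax i hi.2) (hcon i hi.2 hi.1)
  have hne : V.valuation (t j) ≠ 0 := (Valuation.ne_zero_iff _).mpr htj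
  have h1 : V.valuation (∑ i ∈ (Finset.range n).erase j, t i) < V.valuation (t j) :=
    Valuation.map_sum_lt _ hne hlt
  have h2 : ∑ i ∈ (Finset.range n).erase j, t i = - t j := by
    have := Finset.sum_erase_add (Finset.range n) t (Finset.mem_range.mpr hj)
    rw [hs] at this
    linear_combination this
  rw [h2, Valuation.map_neg] at h1
  exact lt_irrefl _ h1

/-- the algebraic dependence over the compositum -/
theorem dec_alg {C A B U : Type} [Field C] [Field A] [Field B] [Field U] [Algebra C A]
    [Algebra C B] [Algebra A U] [Algebra B U] (x : A) (hx : FreeX C A B U x) (y : U) :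
    ∃ p : U[X], p ≠ 0 ∧ (∀ i, p.coeff i ∈ Cmp A B U) ∧ p.eval y = 0 := by
  obtain ⟨-, -, h3⟩ := hx
  obtain ⟨q, hq, hqy⟩ := h3.isAlgebraic y
  have hB : ∀ b : B, algebraMap B U b ∈ Cmp A B U := fun b =>
    Subfield.subset_closure (Or.inr ⟨b, rfl⟩)
  have hle : IntermediateField.adjoin B {algebraMap A U x} ≤
      (Cmp A B U).toIntermediateField hB := by
    rw [IntermediateField.adjoin_le_iff]
    intro z hz
    rw [Set.mem_singleton_iff] at hz
    rw [hz]
    exact Subfield.subset_closure (Or.inl ⟨x, rfl⟩)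
  refine ⟨q.map (algebraMap _ U), ?_, ?_, ?_⟩
  · exact Polynomial.map_ne_zero hq
  · intro i
    rw [Polynomial.coeff_map]
    exact hle (q.coeff i).2
  · rw [Polynomial.eval_map]
    exact hqy

/-- VG: the value group of `U` is that of `A` -/
theorem dec_VG (hG : ST_GAU) {C A B U : Type} [Field C] [Field A] [Field B] [Field U] [Algebra C A]
    [Algebra C B] [Algebra A U] [Algebra B U] [Algebra C U] [IsScalarTower C A U]
    [IsScalarTower C B U] [IsAlgClosed A] (x : A) (hx : FreeX C A B U x)
    (W : ValuationSubring A) (hW : ResC C A W) (W' : ValuationSubring U) (hA : Abv A B U W W')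
    (y : U) (hy : y ≠ 0) : ∃ a : A, a ≠ 0 ∧ W'.valuation (y / algebraMap A U a) = 1 := by
  have key : ∀ s ∈ Cmp A B U, s ≠ 0 → ∀ k : ℕ, 0 < k → W'.valuation y ^ k = W'.valuation s →
      ∃ a : A, a ≠ 0 ∧ W'.valuation (y / algebraMap A U a) = 1 := by
    intro s hs hs0 k hk hys
    obtain ⟨a1, b1, ha1, hb1, hv⟩ := hG C A B U W hW s hs hs0
    have h1 : W'.valuation (s / algebraMap A U a1) = 1 :=
      dec_close W' _ _ (dec_B_unit hA b1 hb1) (hv W' hA)
    obtain ⟨a, ha⟩ := IsAlgClosed.exists_pow_nat_eq a1 hk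
    have ha0 : a ≠ 0 := by
      rintro rfl
      rw [zero_pow hk.ne'] at ha
      exact ha1 ha.symm
    refine ⟨a, ha0, ?_⟩
    have h2 : W'.valuation (y / algebraMap A U a) ^ k = 1 := by
      rw [map_div₀, div_pow, hys, ← map_pow, ← map_pow, ha, ← map_div₀]
      exact h1
    rcases pow_eq_one_iff.mp h2 with h3 | h3
    · exact h3
    · exact absurd h3 hk.ne'
  obtain ⟨p, hp, hpS, hpy⟩ := dec_alg x hx y
  set n := p.natDegree + 1 with hn
  have hsum : ∑ i ∈ Finset.range n, p.coeff i * y ^ i = 0 := by
    rw [← Polynomial.eval_eq_sum_range]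
    exact hpy
  have hne : (Finset.range n).Nonempty := ⟨0, by simp [hn]⟩
  obtain ⟨j, hj, hjmax⟩ := Finset.exists_max_image (Finset.range n)
    (fun i => W'.valuation (p.coeff i * y ^ i)) hne
  rw [Finset.mem_range] at hj
  have htj : p.coeff j * y ^ j ≠ 0 := by
    intro h0
    have h1 := hjmax p.natDegree (by simp [hn])
    rw [h0, map_zero] at h1
    have h2 : p.coeff p.natDegree * y ^ p.natDegree = 0 := by
      have h3 := le_zero_iff.mp h1
      exact (Valuation.zero_iff _).mp h3
    rcases mul_eq_zero.mp h2 with h3 | h3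
    · rw [Polynomial.coeff_natDegree, Polynomial.leadingCoeff_eq_zero] at h3
      exact hp h3
    · exact pow_ne_zero _ hy h3
  obtain ⟨i, hi, hij, hval⟩ := dec_ultra W' n (fun i => p.coeff i * y ^ i) hsum j hj htj
    (fun i hi => hjmax i (Finset.mem_range.mpr hi))
  have hvy : W'.valuation y ≠ 0 := (Valuation.ne_zero_iff _).mpr hy
  have hval' : W'.valuation (p.coeff i * y ^ i) = W'.valuation (p.coeff j * y ^ j) := hval
  have hti : p.coeff i * y ^ i ≠ 0 := by
    rw [← Valuation.ne_zero_iff W'.valuation, hval']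
    exact (Valuation.ne_zero_iff _).mpr htj
  simp only [map_mul, map_pow] at hval
  have key2 : ∀ i j : ℕ, i < j → p.coeff i ≠ 0 → p.coeff j ≠ 0 →
      W'.valuation (p.coeff i) * W'.valuation y ^ i = W'.valuation (p.coeff j) *
        W'.valuation y ^ j → ∃ a : A, a ≠ 0 ∧ W'.valuation (y / algebraMap A U a) = 1 := by
    intro i j hlt hi0 hj0 hv
    refine key (p.coeff i / p.coeff j) (div_mem (hpS i) (hpS j)) (div_ne_zero hi0 hj0) (j - i)
      (Nat.sub_pos_of_lt hlt) ?_
    have hvi : W'.valuation (p.coeff i) ≠ 0 := (Valuation.ne_zero_iff _).mpr hi0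
    have hvj : W'.valuation (p.coeff j) ≠ 0 := (Valuation.ne_zero_iff _).mpr hj0
    rw [map_div₀, eq_div_iff hvj]
    have h1 : W'.valuation y ^ j = W'.valuation y ^ (j - i) * W'.valuation y ^ i := by
      rw [← pow_add, Nat.sub_add_cancel hlt.le]
    rw [h1, ← mul_assoc] at hv
    have h2 := mul_right_cancel₀ (pow_ne_zero i hvy) hv
    rw [h2, mul_comm]
  have hci : p.coeff i ≠ 0 := left_ne_zero_of_mul hti
  have hcj : p.coeff j ≠ 0 := left_ne_zero_of_mul htj
  rcases lt_or_gt_of_ne hij with h | h
  · exact key2 i j h hci hcj hval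
  · exact key2 j i h hcj hci hval.symm

/-- a polynomial over `B` with a small value has a near root -/
theorem dec_root {B U : Type} [Field B] [Field U] [Algebra B U] [IsAlgClosed B]
    (V : ValuationSubring U) (hB : ∀ b : B, b ≠ 0 → V.valuation (algebraMap B U b) = 1) (y : U) :
    ∀ (n : ℕ) (Q : B[X]), Q.natDegree = n → Q ≠ 0 → V.valuation (aeval y Q) < 1 →
      ∃ b : B, V.valuation (y - algebraMap B U b) < 1 := by
  intro n
  induction n with
  | zero =>
    intro Q hQ hQ0 hv
    rw [Polynomial.eq_C_of_natDegree_eq_zero hQ, Polynomial.aeval_C] at hv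
    have h0 : Q.coeff 0 ≠ 0 := by
      intro h0
      apply hQ0
      rw [Polynomial.eq_C_of_natDegree_eq_zero hQ, h0, map_zero]
    rw [hB _ h0] at hv
    exact absurd hv (lt_irrefl _)
  | succ n ih =>
    intro Q hQ hQ0 hv
    have hdeg : Q.degree ≠ 0 := by
      intro h0
      have h1 : Q.natDegree = 0 := Polynomial.natDegree_eq_of_degree_eq_some h0
      omega
    obtain ⟨β, hβ⟩ := IsAlgClosed.exists_root Q hdeg
    obtain ⟨R, hR⟩ := Polynomial.dvd_iff_isRoot.mpr hβ
    have hR0 : R ≠ 0 := by
      rintro rfl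
      rw [mul_zero] at hR
      exact hQ0 hR
    have hRd : R.natDegree = n := by
      have h1 := congrArg Polynomial.natDegree hR
      rw [Polynomial.natDegree_mul (Polynomial.X_sub_C_ne_zero β) hR0,
        Polynomial.natDegree_X_sub_C, hQ] at h1
      omega
    by_cases hlt : V.valuation (y - algebraMap B U β) < 1
    · exact ⟨β, hlt⟩
    · rw [not_lt] at hlt
      apply ih R hRd hR0
      refine lt_of_le_of_lt ?_ hv
      rw [hR, map_mul, map_mul, map_sub, Polynomial.aeval_X, Polynomial.aeval_C]
      exact le_mul_of_one_le_left zero_le hlt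

/-- RS: the residue field of `W'` is `B` -/
theorem dec_RS (hG : ST_GAU) {C A B U : Type} [Field C] [Field A] [Field B] [Field U] [Algebra C A]
    [Algebra C B] [Algebra A U] [Algebra B U] [Algebra C U] [IsScalarTower C A U]
    [IsScalarTower C B U] [IsAlgClosed B] (x : A) (hx : FreeX C A B U x)
    (W : ValuationSubring A) (hW : ResC C A W) (W' : ValuationSubring U) (hA : Abv A B U W W')
    (y : U) (hy : W'.valuation y = 1) : ∃ b : B, W'.valuation (y - algebraMap B U b) < 1 := by
  have hAS : ∀ a : A, algebraMap A U a ∈ Cmp A B U := fun a =>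
    Subfield.subset_closure (Or.inl ⟨a, rfl⟩)
  have hBU : ∀ b : B, b ≠ 0 → W'.valuation (algebraMap B U b) = 1 := fun b hb =>
    dec_B_unit hA b hb
  -- reduction of an integral element of the compositum
  have red : ∀ s ∈ Cmp A B U, W'.valuation s ≤ 1 →
      ∃ b : B, W'.valuation (s - algebraMap B U b) < 1 := by
    intro s hs hs1
    rcases lt_or_eq_of_le hs1 with h | h
    · exact ⟨0, by rw [map_zero, sub_zero]; exact h⟩
    · have hs0 : s ≠ 0 := by
        rintro rfl
        rw [map_zero] at h
        exact zero_ne_one h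
      obtain ⟨a1, b1, ha1, hb1, hv⟩ := hG C A B U W hW s hs hs0
      have hv1 := hv W' hA
      have h1 : W'.valuation (s / algebraMap A U a1) = 1 :=
        dec_close W' _ _ (hBU b1 hb1) hv1
      have h2 : W'.valuation (algebraMap A U a1) = 1 := by
        rw [map_div₀, h] at h1
        have hne : W'.valuation (algebraMap A U a1) ≠ 0 := by
          rw [Valuation.ne_zero_iff]
          exact (map_ne_zero (algebraMap A U)).mpr ha1
        rw [div_eq_iff hne, one_mul] at h1
        exact h1.symm
      have h3 : a1 ∈ W := by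
        rw [← hA.1, ← ValuationSubring.valuation_le_one_iff]
        exact h2.le
      obtain ⟨c, hc⟩ := hW.2 a1 h3
      have h4 := dec_A_lt hA _ hc
      refine ⟨algebraMap C B c * b1, ?_⟩
      have hcU : algebraMap A U (algebraMap C A c) = algebraMap B U (algebraMap C B c) := by
        rw [← IsScalarTower.algebraMap_apply, ← IsScalarTower.algebraMap_apply]
      have ha1U : algebraMap A U a1 ≠ 0 := (map_ne_zero (algebraMap A U)).mpr ha1
      have h5 : s - algebraMap B U (algebraMap C B c * b1) =
          algebraMap A U a1 * (s / algebraMap A U a1 - algebraMap B U b1) +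
            algebraMap A U (a1 - algebraMap C A c) * algebraMap B U b1 := by
        rw [map_sub, map_mul, hcU]
        field_simp
        ring
      rw [h5]
      refine Valuation.map_add_lt _ ?_ ?_
      · rw [map_mul, h2, one_mul]
        exact hv1
      · rw [map_mul, hBU b1 hb1, mul_one]
        exact h4
  obtain ⟨p, hp, hpS, hpy⟩ := dec_alg x hx y
  set n := p.natDegree + 1 with hn
  have hsum : ∑ i ∈ Finset.range n, p.coeff i * y ^ i = 0 := by
    rw [← Polynomial.eval_eq_sum_range]
    exact hpy
  have hne : (Finset.range n).Nonempty := ⟨0, by simp [hn]⟩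
  obtain ⟨j, hj, hjmax⟩ := Finset.exists_max_image (Finset.range n)
    (fun i => W'.valuation (p.coeff i)) hne
  rw [Finset.mem_range] at hj
  have hcj : p.coeff j ≠ 0 := by
    intro h0
    have h1 := hjmax p.natDegree (by simp [hn])
    rw [h0, map_zero] at h1
    have h3 := le_zero_iff.mp h1
    have h4 := (Valuation.zero_iff _).mp h3
    rw [Polynomial.coeff_natDegree, Polynomial.leadingCoeff_eq_zero] at h4
    exact hp h4
  obtain ⟨a0, b0, ha0, hb0, hv0⟩ := hG C A B U W hW (p.coeff j) (hpS j) hcj
  have h1 : W'.valuation (p.coeff j / algebraMap A U a0) = 1 :=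
    dec_close W' _ _ (hBU b0 hb0) (hv0 W' hA)
  have ha0U : algebraMap A U a0 ≠ 0 := (map_ne_zero (algebraMap A U)).mpr ha0
  have hva0 : W'.valuation (algebraMap A U a0) ≠ 0 := (Valuation.ne_zero_iff _).mpr ha0U
  have hle : ∀ i : ℕ, W'.valuation (p.coeff i / algebraMap A U a0) ≤ 1 := by
    intro i
    by_cases hi : i < n
    · rw [← h1, map_div₀, map_div₀]
      exact div_le_div_of_nonneg_right (hjmax i (Finset.mem_range.mpr hi)) zero_le
    · rw [Polynomial.coeff_eq_zero_of_natDegree_lt (by omega), zero_div, map_zero]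
      exact zero_le
  have hred : ∀ i : ℕ, ∃ b : B,
      W'.valuation (p.coeff i / algebraMap A U a0 - algebraMap B U b) < 1 := fun i =>
    red _ (div_mem (hpS i) (hAS a0)) (hle i)
  choose b' hb' using hred
  let Q : B[X] := ∑ i ∈ Finset.range n, Polynomial.C (b' i) * Polynomial.X ^ i
  have hQc : Q.coeff j = b' j := by
    simp only [Q, Polynomial.finsetSum_coeff, Polynomial.coeff_C_mul, Polynomial.coeff_X_pow,
      mul_ite, mul_one, mul_zero]
    rw [Finset.sum_ite_eq (Finset.range n) j b', if_pos (Finset.mem_range.mpr hj)]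
  have hbj : b' j ≠ 0 := by
    intro h0
    have := hb' j
    rw [h0, map_zero, sub_zero, h1] at this
    exact lt_irrefl _ this
  have hQ0 : Q ≠ 0 := by
    intro h0
    rw [h0, Polynomial.coeff_zero] at hQc
    exact hbj hQc.symm
  refine dec_root W' hBU y Q.natDegree Q rfl hQ0 ?_
  have hQy : aeval y Q = ∑ i ∈ Finset.range n,
      (algebraMap B U (b' i) - p.coeff i / algebraMap A U a0) * y ^ i := by
    have h2 : ∑ i ∈ Finset.range n, (p.coeff i / algebraMap A U a0) * y ^ i = 0 := by
      have h3 : ∑ i ∈ Finset.range n, (p.coeff i / algebraMap A U a0) * y ^ i =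
          (∑ i ∈ Finset.range n, p.coeff i * y ^ i) / algebraMap A U a0 := by
        rw [Finset.sum_div]
        refine Finset.sum_congr rfl ?_
        intro i _
        ring
      rw [h3, hsum, zero_div]
    simp only [Q, map_sum, map_mul, Polynomial.aeval_C, map_pow, Polynomial.aeval_X, sub_mul,
      Finset.sum_sub_distrib]
    rw [h2, sub_zero]
  rw [hQy]
  refine Valuation.map_sum_lt _ one_ne_zero ?_
  intro i _
  rw [map_mul, map_pow, hy, one_pow, mul_one, Valuation.map_sub_swap]
  exact hb' i

/-- the group of automorphisms which fix `A` and `B` pointwise and preserve `W'` -/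
def dec_Z (A B U : Type) [Field A] [Field B] [Field U] [Algebra A U] [Algebra B U]
    (W' : ValuationSubring U) : Subgroup (U ≃+* U) where
  carrier := {h | (∀ a, h (algebraMap A U a) = algebraMap A U a) ∧
    (∀ b, h (algebraMap B U b) = algebraMap B U b) ∧ ∀ y, h y ∈ W' ↔ y ∈ W'}
  mul_mem' := by
    rintro g h ⟨hg1, hg2, hg3⟩ ⟨hh1, hh2, hh3⟩
    refine ⟨?_, ?_, ?_⟩
    · intro a
      rw [RingAut.mul_apply, hh1, hg1]
    · intro b
      rw [RingAut.mul_apply, hh2, hg2]
    · intro y
      rw [RingAut.mul_apply, hg3, hh3]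
  one_mem' := ⟨fun a => rfl, fun b => rfl, fun y => Iff.rfl⟩
  inv_mem' := by
    rintro g ⟨hg1, hg2, hg3⟩
    have hgg : ∀ y, g (g⁻¹ y) = y := fun y => g.apply_symm_apply y
    refine ⟨?_, ?_, ?_⟩
    · intro a
      apply g.injective
      rw [hgg, hg1]
    · intro b
      apply g.injective
      rw [hgg, hg2]
    · intro y
      rw [← hg3, hgg]

theorem dec_Z_S {A B U : Type} [Field A] [Field B] [Field U] [Algebra A U] [Algebra B U]
    {W' : ValuationSubring U} (h : U ≃+* U) (hh : h ∈ dec_Z A B U W') (s : U)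
    (hs : s ∈ Cmp A B U) : h s = s := by
  have h1 : Set.EqOn (h : U →+* U) (RingHom.id U)
      (Set.range (algebraMap A U) ∪ Set.range (algebraMap B U)) := by
    rintro z (⟨a, rfl⟩ | ⟨b, rfl⟩)
    · exact hh.1 a
    · exact hh.2.1 b
  exact RingHom.eqOn_field_closure h1 hs

theorem dec_Z_lt {A B U : Type} [Field A] [Field B] [Field U] [Algebra A U] [Algebra B U]
    {W' : ValuationSubring U} (h : U ≃+* U) (hh : h ∈ dec_Z A B U W') (y : U)
    (hy : W'.valuation y < 1) : W'.valuation (h y) < 1 := by
  rw [dec_lt_one] at hy ⊢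
  rcases hy with h1 | h1
  · left
    rw [h1, map_zero]
  · right
    rw [← map_inv₀, hh.2.2]
    exact h1

theorem st_DEC (hG : ST_GAU) : ST_DEC := by
  classical
  intro C A B U _ _ _ _ _ _ _ _ _ _ _ _ _ _ _ x hx W hW W' hA h hh1 hh2 hh3 y
  have hZ : h ∈ dec_Z A B U W' := ⟨hh1, hh2, hh3⟩
  obtain ⟨p, hp, hpS, hpy⟩ := dec_alg x hx y
  -- the orbit of y
  have horb : {z : U | ∃ g ∈ dec_Z A B U W', z = g y}.Finite := by
    refine Set.Finite.subset (p.rootSet_finite U) ?_
    rintro z ⟨g, hg, rfl⟩
    rw [Polynomial.mem_rootSet]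
    refine ⟨hp, ?_⟩
    rw [Polynomial.coe_aeval_eq_eval, Polynomial.eval_eq_sum_range]
    have h1 : ∑ i ∈ Finset.range (p.natDegree + 1), p.coeff i * (g y) ^ i =
        g (∑ i ∈ Finset.range (p.natDegree + 1), p.coeff i * y ^ i) := by
      rw [map_sum]
      refine Finset.sum_congr rfl ?_
      intro i _
      rw [map_mul, map_pow, dec_Z_S g hg _ (hpS i)]
    rw [h1, ← Polynomial.eval_eq_sum_range, hpy, map_zero]
  set F : Finset U := horb.toFinset with hF
  have hFm : ∀ z, z ∈ F ↔ ∃ g ∈ dec_Z A B U W', z = g y := by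
    intro z
    rw [hF, Set.Finite.mem_toFinset]
    rfl
  have hyF : y ∈ F := (hFm y).mpr ⟨1, one_mem _, rfl⟩
  have hcard : (F.card : U) ≠ 0 := by
    have : CharZero U := charZero_of_injective_algebraMap (algebraMap C U).injective
    rw [Nat.cast_ne_zero]
    exact Finset.card_ne_zero_of_mem hyF
  have hcardB : (F.card : B) ≠ 0 := by
    have : CharZero B := charZero_of_injective_algebraMap (algebraMap C B).injective
    rw [Nat.cast_ne_zero]
    exact Finset.card_ne_zero_of_mem hyF
  have hfix : ∀ g ∈ dec_Z A B U W', g (∑ z ∈ F, z) = ∑ z ∈ F, z := by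
    intro g hg
    have h1 : F.image g = F := by
      refine Finset.eq_of_subset_of_card_le ?_ ?_
      · intro z hz
        rw [Finset.mem_image] at hz
        obtain ⟨z', hz', rfl⟩ := hz
        rw [hFm] at hz' ⊢
        obtain ⟨g', hg', rfl⟩ := hz'
        exact ⟨g * g', mul_mem hg hg', rfl⟩
      · rw [Finset.card_image_of_injective _ g.injective]
    rw [map_sum]
    conv_rhs => rw [← h1]
    rw [Finset.sum_image (fun a _ b _ hab => g.injective hab)]
  set e : U := (∑ z ∈ F, z) / (F.card : U) with he
  have hge : ∀ g ∈ dec_Z A B U W', g e = e := by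
    intro g hg
    rw [he, map_div₀, hfix g hg, map_natCast]
  by_cases hye : y = e
  · rw [hye]
    exact hge h hZ
  · exfalso
    have hw : y - e ≠ 0 := sub_ne_zero.mpr hye
    obtain ⟨a, ha, hva⟩ := dec_VG hG x hx W hW W' hA (y - e) hw
    obtain ⟨b, hb⟩ := dec_RS hG x hx W hW W' hA _ hva
    have hb0 : b ≠ 0 := by
      rintro rfl
      rw [map_zero, sub_zero, hva] at hb
      exact lt_irrefl _ hb
    have hall : ∀ z ∈ F,
        W'.valuation ((z - e) / algebraMap A U a - algebraMap B U b) < 1 := by
      intro z hz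
      rw [hFm] at hz
      obtain ⟨g, hg, rfl⟩ := hz
      have h1 := dec_Z_lt g hg _ hb
      have h2 : g ((y - e) / algebraMap A U a - algebraMap B U b) =
          (g y - e) / algebraMap A U a - algebraMap B U b := by
        rw [map_sub g, map_div₀ g, map_sub g, hge g hg, hg.1, hg.2.1]
      rw [h2] at h1
      exact h1
    have hsum := Valuation.map_sum_lt W'.valuation (one_ne_zero) hall
    have h2 : ∑ z ∈ F, ((z - e) / algebraMap A U a - algebraMap B U b) =
        - algebraMap B U ((F.card : B) * b) := by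
      rw [Finset.sum_sub_distrib, ← Finset.sum_div, Finset.sum_sub_distrib, Finset.sum_const,
        Finset.sum_const, nsmul_eq_mul, nsmul_eq_mul, map_mul, map_natCast]
      have h3 : (F.card : U) * e = ∑ z ∈ F, z := by
        rw [he, mul_div_cancel₀ _ hcard]
      rw [h3, sub_self, zero_div, zero_sub]
    rw [h2, Valuation.map_neg, dec_B_unit hA _ (mul_ne_zero hcardB hb0)] at hsum
    exact lt_irrefl _ hsum

end Pool.Agent.Helper1.BSX
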